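import Pool.Agent.H81.GF.Gsc

/-!
# Gmag: magnification of small returns (compare `H46.RG.mag`)

Suppose there is no such `δ`.  For every `n` there are `y n ∈ Z`, `E n`, all entries `< 1 / (n + 1)`, `(1 + E n) * y n ∈ Z`
and an entry `E n a b ≠ 0` with `w b < w a`.  `gscale` gives `t n ≥ 0`.  `E' n = diagonal (gflow w (t n)) * E n *
diagonal (gflow w (t n))⁻¹` has entries bounded by `1`, one entry `(i, j)` with `w j < w i` of absolute value `1`, and the
entries with `w i ≤ w j` tend to `0`.  `z n = diagonal (gflow w (t n)) * y n ∈ Z`; `subseq` gives a subsequence and units with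
`z (φ n) * im (U n) → z ∈ Z`; pass to a further subsequence with `E' → v` (compactness of
`{M | ∀ i j, |M i j| ≤ 1}`, as in `H46.RG.mag`).  Then `v ≠ 0`, `Up w v`, and
`(1 + E' n) * z n * im (U n) = diagonal (gflow w (t n)) * ((1 + E n) * y n) * im (U n) ∈ Z` tends to `(1 + v) * z ∈ Z`.
-/

set_option autoImplicit false

namespace Pool.Agent.H81.GF

open Matrix Filter Topology Pool.Agent.H89.CSD Pool.Agent.H46.RG

variable {d : ℕ}

theorem gmag {g : Matrix (Fin d) (Fin d) ℝ} (hg : g.det ≠ 0) {c : ℝ} (hc : 0 < c)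
    (hp : Pos c g) (w : Fin d → ℝ) {Z : Set (Matrix (Fin d) (Fin d) ℝ)}
    (hZ : Z ⊆ Om g) (hinv : IsInv (GFlow w) Z)
    (hno : ∀ z ∈ Z, ∀ v : Matrix (Fin d) (Fin d) ℝ, v ≠ 0 → Up w v → (1 + v) * z ∉ Z) :
    ∃ δ : ℝ, 0 < δ ∧ ∀ y ∈ Z, ∀ E : Matrix (Fin d) (Fin d) ℝ, (1 + E) * y ∈ Z →
      (∀ i j, |E i j| < δ) → ∀ a b, w b < w a → E a b = 0 := by
  classical
  by_contra hcon
  push Not at hcon
  have hex : ∀ n : ℕ, ∃ (y E : Matrix (Fin d) (Fin d) ℝ) (t : ℝ) (p q : Fin d), y ∈ Z ∧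
      (1 + E) * y ∈ Z ∧ (∀ i j, |E i j| < 1 / ((n : ℝ) + 1)) ∧
      (∀ i j, w j < w i → |gflow w t i * E i j * (gflow w t j)⁻¹| ≤ 1) ∧
      |gflow w t p * E p q * (gflow w t q)⁻¹| = 1 ∧
      (∀ i j, w i ≤ w j → |gflow w t i * E i j * (gflow w t j)⁻¹| ≤ |E i j|) := by
    intro n
    obtain ⟨y, hy, E, hE, hEs, a, b, hab, hne⟩ := hcon (1 / ((n : ℝ) + 1)) (by positivity)
    have hE1 : ∀ i j, |E i j| < 1 := by
      intro i j
      refine (hEs i j).trans_le ?_
      rw [div_le_one (by positivity)]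
      have : (0 : ℝ) ≤ n := Nat.cast_nonneg n
      linarith
    obtain ⟨t, -, h1, ⟨p, q, -, hpq⟩, h3⟩ := gscale w hE1 ⟨a, b, hab, hne⟩
    exact ⟨y, E, t, p, q, hy, hE, hEs, h1, hpq, h3⟩
  choose y E t p q hy hE hEs hup hpq hdn using hex
  let E' : ℕ → Matrix (Fin d) (Fin d) ℝ := fun n => Matrix.of fun a b =>
    gflow w (t n) a * E n a b * (gflow w (t n) b)⁻¹
  have hE' : ∀ n a b, E' n a b = gflow w (t n) a * E n a b * (gflow w (t n) b)⁻¹ :=
    fun n a b => rfl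
  have hcomm : ∀ n, (1 + E' n) * diagonal (gflow w (t n)) =
      diagonal (gflow w (t n)) * (1 + E n) := by
    intro n
    ext a b
    have hfb : gflow w (t n) b ≠ 0 := (gflow_pos w (t n) b).ne'
    rw [Matrix.mul_diagonal, Matrix.diagonal_mul, Matrix.add_apply, Matrix.add_apply, hE']
    by_cases hab : a = b
    · subst hab
      rw [Matrix.one_apply_eq]
      field_simp
    · rw [Matrix.one_apply_ne hab, zero_add, zero_add]
      field_simp
  have hn1 : ∀ n : ℕ, 1 / ((n : ℝ) + 1) ≤ 1 := by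
    intro n
    rw [div_le_one (by positivity)]
    have : (0 : ℝ) ≤ n := Nat.cast_nonneg n
    linarith
  have hsmall : ∀ n a b, ¬ (w b < w a) → |E' n a b| ≤ 1 / ((n : ℝ) + 1) := by
    intro n a b hab
    rw [hE']
    exact (hdn n a b (not_lt.1 hab)).trans (hEs n a b).le
  have hb1 : ∀ n a b, |E' n a b| ≤ 1 := by
    intro n a b
    by_cases hab : w b < w a
    · rw [hE']
      exact hup n a b hab
    · exact (hsmall n a b hab).trans (hn1 n)
  have hbig : ∀ n, |E' n (p n) (q n)| = 1 := by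
    intro n
    rw [hE']
    exact hpq n
  -- a convergent subsequence
  have hK : IsCompact (Set.pi Set.univ fun _ : Fin d => Set.pi Set.univ fun _ : Fin d =>
      Set.Icc (-1 : ℝ) 1) := isCompact_univ_pi fun _ => isCompact_univ_pi fun _ => isCompact_Icc
  obtain ⟨v, -, φ, hφ, hv⟩ := hK.tendsto_subseq
    (x := fun (n : ℕ) (a b : Fin d) => E' n a b) (fun n i _ j _ => abs_le.1 (hb1 n i j))
  have hvab : ∀ a b, Tendsto (fun n => E' (φ n) a b) atTop (𝓝 (v a b)) := by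
    intro a b
    exact (tendsto_pi_nhds.1 ((tendsto_pi_nhds.1 hv) a)) b
  have hUp : Up w (v : Matrix (Fin d) (Fin d) ℝ) := by
    intro a b hab
    by_contra hn
    apply hab
    have h1 : Tendsto (fun n => E' (φ n) a b) atTop (𝓝 0) := by
      refine squeeze_zero_norm (fun n => ?_) ((tendsto_one_div_add_atTop_nhds_zero_nat (𝕜 := ℝ)).comp
        hφ.tendsto_atTop)
      exact hsmall (φ n) a b hn
    exact tendsto_nhds_unique (hvab a b) h1
  have hv0 : (v : Matrix (Fin d) (Fin d) ℝ) ≠ 0 := by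
    intro h0
    have h1 : Tendsto (fun n => ∑ a, ∑ b, |E' (φ n) a b|) atTop (𝓝 (∑ a, ∑ b, |v a b|)) :=
      tendsto_finsetSum _ fun a _ => tendsto_finsetSum _ fun b _ => (hvab a b).abs
    have h2 : ∑ a, ∑ b, |v a b| = 0 := by
      refine Finset.sum_eq_zero fun a _ => Finset.sum_eq_zero fun b _ => ?_
      have h3 : v a b = 0 := congrFun (congrFun h0 a) b
      rw [h3, abs_zero]
    rw [h2] at h1
    have h3 : ∀ n, (1 : ℝ) ≤ ∑ a, ∑ b, |E' (φ n) a b| := by
      intro n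
      rw [← hbig (φ n)]
      refine le_trans ?_ (Finset.single_le_sum (f := fun a => ∑ b, |E' (φ n) a b|)
        (fun a _ => Finset.sum_nonneg fun b _ => abs_nonneg _) (Finset.mem_univ (p (φ n))))
      exact Finset.single_le_sum (f := fun b => |E' (φ n) (p (φ n)) b|)
        (fun b _ => abs_nonneg _) (Finset.mem_univ (q (φ n)))
    have h4 : (1 : ℝ) ≤ 0 := ge_of_tendsto' h1 h3
    linarith
  have hzZ : ∀ n, diagonal (gflow w (t (φ n))) * y (φ n) ∈ Z := fun n =>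
    hinv.diag _ ⟨t (φ n), rfl⟩ _ (hy (φ n))
  obtain ⟨z, hz, ψ, U, hψ, hlim⟩ := subseq hg hc hp hZ hinv
    (fun n => diagonal (gflow w (t (φ n))) * y (φ n)) hzZ
  refine hno z hz v hv0 hUp ?_
  have hE'lim : Tendsto (fun n => (1 : Matrix (Fin d) (Fin d) ℝ) + E' (φ (ψ n))) atTop
      (𝓝 (1 + (Matrix.of v : Matrix (Fin d) (Fin d) ℝ))) := by
    refine Tendsto.const_add _ ?_
    exact hv.comp hψ.tendsto_atTop
  have hlim2 := hE'lim.mul hlim
  refine hinv.closed.mem_of_tendsto hlim2 (Eventually.of_forall fun n => ?_)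
  have e : (1 + E' (φ (ψ n))) * (diagonal (gflow w (t (φ (ψ n)))) * y (φ (ψ n)) *
      im (U n : Matrix (Fin d) (Fin d) ℤ)) =
      diagonal (gflow w (t (φ (ψ n)))) * ((1 + E (φ (ψ n))) * y (φ (ψ n))) *
      im (U n : Matrix (Fin d) (Fin d) ℤ) := by
    rw [← Matrix.mul_assoc, ← Matrix.mul_assoc, hcomm, Matrix.mul_assoc (diagonal _)]
  show (1 + E' (φ (ψ n))) * (diagonal (gflow w (t (φ (ψ n)))) * y (φ (ψ n)) *
      im (U n : Matrix (Fin d) (Fin d) ℤ)) ∈ Z
  rw [e]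
  exact hinv.im (hinv.diag _ ⟨_, rfl⟩ _ (hE (φ (ψ n)))) (U n)

end Pool.Agent.H81.GF
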