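import Pool.Agent.H46.RG.Comp

/-!
# General one-parameter groups of diagonal matrices: definitions

`gflow w t = exp (t w)`, `w : Fin d → ℝ` of sum zero.  `Up w v`: the nonzero entries of `v` are those expanded by the
conjugation with `gflow w t`, `t > 0`.
-/

set_option autoImplicit false

namespace Pool.Agent.H81.GF

open Matrix Filter Topology Pool.Agent.H89.CSD Pool.Agent.H46.RG

variable {d : ℕ}

/-- The one-parameter group with exponents `w`. -/
noncomputable def gflow (w : Fin d → ℝ) (t : ℝ) (i : Fin d) : ℝ := Real.exp (t * w i)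

/-- The one-parameter group as a set. -/
def GFlow (w : Fin d → ℝ) : Set (Fin d → ℝ) := Set.range (gflow w)

/-- The nonzero entries `(a, b)` of `v` have `w b < w a`. -/
def Up (w : Fin d → ℝ) (v : Matrix (Fin d) (Fin d) ℝ) : Prop := ∀ a b, v a b ≠ 0 → w b < w a

theorem gflow_pos (w : Fin d → ℝ) (t : ℝ) (i : Fin d) : 0 < gflow w t i := Real.exp_pos _

theorem gflow_add (w : Fin d → ℝ) (s t : ℝ) (i : Fin d) :
    gflow w (s + t) i = gflow w s i * gflow w t i := by
  rw [gflow, gflow, gflow, ← Real.exp_add, add_mul]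

theorem gflow_mem_A1 {w : Fin d → ℝ} (hw : ∑ i, w i = 0) (t : ℝ) : gflow w t ∈ A1 d := by
  refine ⟨gflow_pos w t, ?_⟩
  unfold gflow
  rw [← Real.exp_sum, ← Finset.mul_sum, hw, mul_zero, Real.exp_zero]

theorem gflow_ratio (w : Fin d → ℝ) (t : ℝ) (i j : Fin d) :
    gflow w t i * (gflow w t j)⁻¹ = Real.exp (t * (w i - w j)) := by
  rw [gflow, gflow, ← Real.exp_neg, ← Real.exp_add]
  congr 1
  ring

end Pool.Agent.H81.GF
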