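import Pool.Agent.H81.GF.Gdt

/-!
# Gdet: the determinant of a close return on an invariant subspace

`M Γ = diagonal (gflow w (-m)) (1 + E) M`, `M = C N`, `N = M.submatrix σ id` invertible.  Rows `σ j`:
`N Γ = T' N` with `T' j l = exp (- m w (σ j)) (δ_jl + F j l)`, `F j l = ∑_b E (σ j) b * C b l`
(`C (σ j) l = δ_jl`).  So `|det T'| = 1`.  `E (σ j) b ≠ 0 → w (σ j) ≤ w b` and `C b l ≠ 0 → w b ≤ w (σ l)`, so
`T' j l ≠ 0 → w (σ j) ≤ w (σ l)`; and if `w (σ j) = w (σ l)` then the nonzero terms have `w b = w (σ l)`, so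
`|C b l| ≤ 1` and `|F j l| ≤ d δ`.  `block_det` with `u = w ∘ σ`: `1 = |det T'| = |det D|`, and
`D = diagonal (exp (- m w (σ j))) (1 + F')`, `F' j l = F j l` if `w (σ j) = w (σ l)`, else `0`.  So
`1 = exp (- m ∑_j w (σ j)) |det (1 + F')|` with `1/2 ≤ |det (1 + F')| ≤ 2` (`small_det`, `δ = ρ / (d + 1)`), and
`m |∑_j w (σ j)| ≤ log 2 ≤ 1`.
-/

set_option autoImplicit false

namespace Pool.Agent.H81.GF

open Matrix Filter Topology Pool.Agent.H89.CSD Pool.Agent.H46.RG

variable {d : ℕ}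

theorem gdet (d : ℕ) : ∃ δ : ℝ, 0 < δ ∧ ∀ k ≤ d, ∀ (w : Fin d → ℝ) (m : ℕ)
    (E : Matrix (Fin d) (Fin d) ℝ) (M C : Matrix (Fin d) (Fin k) ℝ) (σ : Fin k → Fin d)
    (Γ : Matrix (Fin k) (Fin k) ℝ), (∀ i j, |E i j| < δ) → (∀ a b, w b < w a → E a b = 0) →
    (M.submatrix σ id).det ≠ 0 → M = C * M.submatrix σ id →
    (∀ i j, C i j ≠ 0 → w i ≤ w (σ j)) → (∀ i j, w i = w (σ j) → |C i j| ≤ 1) →
    (∀ j l, C (σ j) l = if j = l then 1 else 0) → |Γ.det| = 1 →
    M * Γ = diagonal (gflow w (-m)) * ((1 + E) * M) → m * |∑ j, w (σ j)| ≤ 1 := by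
  obtain ⟨ρ, hρ, hdet⟩ := small_det d
  have hd1 : (0 : ℝ) < d + 1 := by positivity
  refine ⟨ρ / (d + 1), div_pos hρ hd1, fun k hk w m E M C σ Γ hE hE0 hN hMC hC hC1 hCd hΓ heq => ?_⟩
  obtain ⟨N, hNd⟩ : ∃ N, N = M.submatrix σ id := ⟨_, rfl⟩
  rw [← hNd] at hN hMC
  obtain ⟨F, hF⟩ : ∃ F : Matrix (Fin k) (Fin k) ℝ, F = (E * C).submatrix σ id := ⟨_, rfl⟩
  have hFj : ∀ j l, F j l = ∑ b, E (σ j) b * C b l := by
    intro j l
    rw [hF, submatrix_apply, id_eq, mul_apply]
  -- the rows `σ j`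
  have h1 : N * Γ = diagonal (fun j => gflow w (-m) (σ j)) * (1 + F) * N := by
    ext j l
    have h2 := congrFun (congrFun heq (σ j)) l
    rw [diagonal_mul, Matrix.add_mul, Matrix.one_mul, Matrix.add_apply] at h2
    have h3 : (N * Γ) j l = (M * Γ) (σ j) l := by
      rw [hNd, mul_apply, mul_apply]
      rfl
    have h4 : (F * N) j l = (E * M) (σ j) l := by
      have h5 : E * M = E * C * N := by rw [Matrix.mul_assoc, ← hMC]
      rw [h5, hF, mul_apply, mul_apply]
      rfl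
    have h5 : N j l = M (σ j) l := by rw [hNd]; rfl
    rw [h3, h2, Matrix.mul_assoc, diagonal_mul, Matrix.add_mul, Matrix.one_mul,
      Matrix.add_apply, h4, h5]
  have h2 := congrArg det h1
  rw [det_mul, det_mul, det_mul, det_diagonal] at h2
  have h3 : Γ.det = (∏ j, gflow w (-m) (σ j)) * (1 + F).det := by
    have h4 : N.det * Γ.det = N.det * ((∏ j, gflow w (-m) (σ j)) * (1 + F).det) := by
      rw [h2]; ring
    exact mul_left_cancel₀ hN h4
  have h4 : ∏ j, gflow w (-m) (σ j) = Real.exp (-(m * ∑ j, w (σ j))) := by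
    unfold gflow
    rw [← Real.exp_sum, ← Finset.mul_sum, neg_mul]
  have hne : ∀ j l, F j l ≠ 0 → w (σ j) ≤ w (σ l) := by
    intro j l h
    rw [hFj] at h
    obtain ⟨b, -, hb⟩ := Finset.exists_ne_zero_of_sum_ne_zero h
    have h5 : w (σ j) ≤ w b := by
      by_contra h6
      exact left_ne_zero_of_mul hb (hE0 _ _ (not_le.1 h6))
    exact h5.trans (hC _ _ (right_ne_zero_of_mul hb))
  have h5 := block_det (fun j => w (σ j)) (1 + F) (by
    intro j l h
    by_cases hjl : j = l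
    · rw [hjl]
    · apply hne
      rw [Matrix.add_apply, one_apply_ne hjl, zero_add] at h
      exact h)
  obtain ⟨G, hG⟩ : ∃ G : Matrix (Fin k) (Fin k) ℝ,
    G = Matrix.of fun j l => if w (σ j) = w (σ l) then F j l else 0 := ⟨_, rfl⟩
  have h6 : (Matrix.of fun j l => if w (σ j) = w (σ l) then (1 + F) j l else 0 :
      Matrix (Fin k) (Fin k) ℝ) = 1 + G := by
    ext j l
    rw [hG, Matrix.add_apply, of_apply, of_apply]
    split_ifs with h7
    · rw [Matrix.add_apply]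
    · have hjl : j ≠ l := by
        rintro rfl
        exact h7 rfl
      rw [one_apply_ne hjl, add_zero]
  have hGb : ∀ j l, |G j l| ≤ ρ := by
    intro j l
    rw [hG, of_apply]
    split_ifs with h7
    · rw [hFj]
      refine (Finset.abs_sum_le_sum_abs _ _).trans ?_
      have h8 : ∀ b ∈ (Finset.univ : Finset (Fin d)), |E (σ j) b * C b l| ≤ ρ / (d + 1) := by
        intro b _
        by_cases h9 : E (σ j) b * C b l = 0
        · rw [h9, abs_zero]
          exact (div_pos hρ hd1).le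
        · have h10 : w (σ j) ≤ w b := by
            by_contra h6
            exact left_ne_zero_of_mul h9 (hE0 _ _ (not_le.1 h6))
          have h11 := hC _ _ (right_ne_zero_of_mul h9)
          have h12 : w b = w (σ l) := le_antisymm h11 (by rw [← h7]; exact h10)
          rw [abs_mul]
          calc |E (σ j) b| * |C b l| ≤ ρ / (d + 1) * 1 :=
                mul_le_mul (hE _ _).le (hC1 _ _ h12) (abs_nonneg _) (div_pos hρ hd1).le
            _ = _ := mul_one _
      refine (Finset.sum_le_card_nsmul _ _ _ h8).trans ?_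
      rw [Finset.card_univ, Fintype.card_fin, nsmul_eq_mul, mul_div_assoc', div_le_iff₀ hd1]
      nlinarith
    · rw [abs_zero]
      exact hρ.le
  obtain ⟨h7, h8⟩ := hdet k hk G hGb
  rw [h5, h6, h4] at h3
  rw [h3, abs_mul, abs_of_pos (Real.exp_pos _)] at hΓ
  obtain ⟨s, hs⟩ : ∃ s : ℝ, s = m * ∑ j, w (σ j) := ⟨_, rfl⟩
  rw [← hs] at hΓ
  have he := Real.exp_one_gt_d9
  have h9 : Real.exp (-s) < Real.exp 1 := by nlinarith [Real.exp_pos (-s)]
  have h10 : Real.exp s < Real.exp 1 := by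
    have h11 : Real.exp s * Real.exp (-s) = 1 := by rw [← Real.exp_add, add_neg_cancel, Real.exp_zero]
    have h12 : Real.exp s = |(1 + G).det| := by
      have h13 : Real.exp (-s) ≠ 0 := (Real.exp_pos _).ne'
      have h14 : Real.exp (-s) * Real.exp s = Real.exp (-s) * |(1 + G).det| := by
        rw [hΓ, mul_comm, h11]
      exact mul_left_cancel₀ h13 h14
    rw [h12]
    linarith
  rw [Real.exp_lt_exp] at h9 h10
  have h11 : (m : ℝ) * |∑ j, w (σ j)| = |s| := by
    rw [hs, abs_mul, Nat.abs_cast]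
  rw [h11, abs_le]
  constructor <;> linarith

end Pool.Agent.H81.GF
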