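import Pool.Agent.H81.GF.Def

/-!
# Gdt: two facts on determinants

`small_det`: continuity of the determinant at the identity, for the finitely many sizes `k ≤ d`
(entries of `F` bounded by `ρ`; take the minimum of the `ρ`s, for example by induction on `d`).

`block_det`: `T' j l ≠ 0 → u j ≤ u l` (`u : Fin k → ℝ`).  Then `det T' = det D`, `D j l = T' j l` if `u j = u l`, else `0`.
Proof: for every real `s` the matrix `T'_s j l = exp (s (u j - u l)) T' j l` is conjugate to `T'` by a diagonal matrix, so it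
has the same determinant; for `s → ∞` it tends to `D` entrywise (`u j - u l < 0` where `T' j l ≠ 0`, `u j ≠ u l`), and the
determinant is continuous (`tendsto_nhds_unique`).  Or use `Matrix.BlockTriangular`.
-/

set_option autoImplicit false

namespace Pool.Agent.H81.GF

open Matrix Filter Topology Pool.Agent.H89.CSD Pool.Agent.H46.RG

variable {d : ℕ}

private theorem gdt_one (k : ℕ) : ∃ ρ : ℝ, 0 < ρ ∧ ∀ F : Matrix (Fin k) (Fin k) ℝ,
    (∀ i j, |F i j| ≤ ρ) → 1 / 2 ≤ |(1 + F).det| ∧ |(1 + F).det| ≤ 2 := by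
  have hc : Continuous fun F : Fin k → Fin k → ℝ =>
      |((1 : Matrix (Fin k) (Fin k) ℝ) + Matrix.of F).det| := by
    refine continuous_abs.comp (Continuous.matrix_det ?_)
    exact continuous_const.add continuous_id
  have h0 : |((1 : Matrix (Fin k) (Fin k) ℝ) + Matrix.of (0 : Fin k → Fin k → ℝ)).det| = 1 := by
    have h1 : (Matrix.of (0 : Fin k → Fin k → ℝ) : Matrix (Fin k) (Fin k) ℝ) = 0 := rfl
    rw [h1, add_zero, det_one, abs_one]
  obtain ⟨δ, hδ, h⟩ := Metric.continuousAt_iff.1 (hc.continuousAt (x := 0)) (1 / 2) (by norm_num)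
  have key : ∀ F : Fin k → Fin k → ℝ, (∀ i j, |F i j| ≤ δ / 2) →
      1 / 2 ≤ |((1 : Matrix (Fin k) (Fin k) ℝ) + Matrix.of F).det| ∧
        |((1 : Matrix (Fin k) (Fin k) ℝ) + Matrix.of F).det| ≤ 2 := by
    intro F hF
    have h1 : dist F 0 < δ := by
      refine lt_of_le_of_lt ?_ (by linarith : δ / 2 < δ)
      rw [dist_pi_le_iff (by linarith)]
      intro i
      rw [dist_pi_le_iff (by linarith)]
      intro j
      rw [Pi.zero_apply, Pi.zero_apply, Real.dist_eq, sub_zero]
      exact hF i j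
    have h2 := h h1
    rw [h0, Real.dist_eq] at h2
    rw [abs_lt] at h2
    constructor <;> linarith [h2.1, h2.2]
  exact ⟨δ / 2, by linarith, fun F hF => key F hF⟩


theorem small_det (d : ℕ) : ∃ ρ : ℝ, 0 < ρ ∧ ∀ k ≤ d, ∀ F : Matrix (Fin k) (Fin k) ℝ,
    (∀ i j, |F i j| ≤ ρ) → 1 / 2 ≤ |(1 + F).det| ∧ |(1 + F).det| ≤ 2 := by
  induction d with
  | zero =>
    obtain ⟨ρ, hρ, h⟩ := gdt_one 0
    refine ⟨ρ, hρ, fun k hk => ?_⟩
    obtain rfl : k = 0 := by omega
    exact h
  | succ d ih =>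
    obtain ⟨ρ, hρ, h⟩ := gdt_one (d + 1)
    obtain ⟨ρ', hρ', h'⟩ := ih
    refine ⟨min ρ ρ', lt_min hρ hρ', fun k hk F hF => ?_⟩
    rcases Nat.lt_or_eq_of_le hk with hk | rfl
    · exact h' k (by omega) F fun i j => (hF i j).trans (min_le_right _ _)
    · exact h F fun i j => (hF i j).trans (min_le_left _ _)

theorem block_det {k : ℕ} (u : Fin k → ℝ) (T : Matrix (Fin k) (Fin k) ℝ)
    (hT : ∀ j l, T j l ≠ 0 → u j ≤ u l) :
    T.det = (Matrix.of fun j l => if u j = u l then T j l else 0 : Matrix (Fin k) (Fin k) ℝ).det := by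
  rw [det_apply', det_apply']
  refine Finset.sum_congr rfl fun σ _ => ?_
  congr 1
  by_cases h : ∀ i, T (σ i) i ≠ 0
  · have h1 : ∀ i ∈ (Finset.univ : Finset (Fin k)), u (σ i) ≤ u i := fun i _ => hT _ _ (h i)
    have h2 : ∑ i, u (σ i) = ∑ i, u i := Equiv.sum_comp σ u
    have h3 := (Finset.sum_eq_sum_iff_of_le h1).1 h2
    refine Finset.prod_congr rfl fun i _ => ?_
    rw [of_apply, if_pos (h3 i (Finset.mem_univ i))]
  · push Not at h
    obtain ⟨i, hi⟩ := h
    have h1 : ∏ i, T (σ i) i = 0 := Finset.prod_eq_zero (Finset.mem_univ i) hi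
    have h2 : ∏ i, (Matrix.of fun j l => if u j = u l then T j l else 0 :
        Matrix (Fin k) (Fin k) ℝ) (σ i) i = 0 := by
      refine Finset.prod_eq_zero (Finset.mem_univ i) ?_
      rw [of_apply, hi, ite_self]
    rw [h1, h2]

end Pool.Agent.H81.GF
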