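import Pool.Agent.H81.GF.Def

/-!
# Gmin: a nonvanishing maximal minor

`B` is injective on `ℤ ^ k`, so its columns are linearly independent over `ℤ`, over `ℚ` (`LinearIndependent.iff_fractionRing`)
and over `ℝ` (a real relation: the rank of a rational matrix does not change; or: some `k × k` minor of `B` over `ℚ` is
nonzero, and its determinant is an integer, nonzero in `ℝ`, so the columns are independent over `ℝ`).  `y` is invertible,
so `M = y * B` is injective on `ℝ ^ k`, the rows of `M` span `ℝ ^ k`, and `k` of them are linearly independent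
(`exists_linearIndependent`, or `Module.Basis.ofSpan`-type lemma, or `Matrix.rank_eq_finrank_span_row`), so the
determinant of this submatrix is not zero.

`exists_minor` is the field statement (any field `F`): a matrix `M : Fin d × Fin k` with `M *ᵥ x = 0 → x = 0` has an
invertible `k × k` submatrix of rows.
-/

set_option autoImplicit false

namespace Pool.Agent.H81.GF

open Matrix Filter Topology Pool.Agent.H89.CSD Pool.Agent.H46.RG

variable {d : ℕ}

theorem exists_minor {F : Type*} [Field F] {k : ℕ} (M : Matrix (Fin d) (Fin k) F)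
    (h : ∀ x : Fin k → F, M *ᵥ x = 0 → x = 0) :
    ∃ σ : Fin k → Fin d, (M.submatrix σ id).det ≠ 0 := by
  classical
  have hinj : Function.Injective M.mulVecLin := by
    rw [injective_iff_map_eq_zero]
    intro x hx
    exact h x hx
  have hrank : Module.finrank F (Submodule.span F (Set.range M.row)) = k := by
    rw [← rank_eq_finrank_span_row]
    unfold Matrix.rank
    rw [LinearMap.finrank_range_of_inj hinj, Module.finrank_fin_fun]
  obtain ⟨b, hb, hspan, hli⟩ := exists_linearIndependent F (Set.range M.row)
  have hbf : b.Finite := (Set.finite_range M.row).subset hb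
  have : Fintype b := hbf.fintype
  have hcard : Fintype.card b = k := by
    have h1 := finrank_span_set_eq_card hli
    rw [hspan, hrank, Set.toFinset_card] at h1
    exact h1.symm
  have hch : ∀ v : b, ∃ i : Fin d, M.row i = v := fun v => hb v.2
  choose s hs using hch
  let e : Fin k ≃ b := (Fintype.equivFinOfCardEq hcard).symm
  refine ⟨fun i => s (e i), ?_⟩
  have h1 : LinearIndependent F (M.submatrix (fun i => s (e i)) id).row := by
    have h2 := hli.comp e e.injective
    have h3 : (M.submatrix (fun i => s (e i)) id).row = (fun v : b => (v : Fin k → F)) ∘ e := by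
      funext i
      rw [Function.comp_apply, ← hs (e i)]
      rfl
    rw [h3]
    exact h2
  rw [linearIndependent_rows_iff_isUnit, Matrix.isUnit_iff_isUnit_det] at h1
  exact h1.ne_zero

theorem gmin {k : ℕ} {y : Matrix (Fin d) (Fin d) ℝ} (hy : y.det ≠ 0)
    (B : Matrix (Fin d) (Fin k) ℤ) (hB : ∀ x : Fin k → ℤ, x ≠ 0 → B *ᵥ x ≠ 0) :
    ∃ σ : Fin k → Fin d, ((y * B.map (Int.cast : ℤ → ℝ)).submatrix σ id).det ≠ 0 := by
  classical
  -- over the rationals
  have h1 : ∀ x : Fin k → ℚ, B.map (Int.cast : ℤ → ℚ) *ᵥ x = 0 → x = 0 := by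
    intro x hx
    obtain ⟨b, hb⟩ := IsLocalization.exist_integer_multiples_of_finite (nonZeroDivisors ℤ) x
    choose z hz using hb
    have hz' : ∀ i, ((z i : ℤ) : ℚ) = ((b : ℤ) : ℚ) * x i := by
      intro i
      have := hz i
      rw [zsmul_eq_mul] at this
      exact this
    have h2 : B *ᵥ z = 0 := by
      funext i
      have h3 := congrFun hx i
      rw [mulVec, dotProduct, Pi.zero_apply] at h3 ⊢
      have h4 : ((∑ j, B i j * z j : ℤ) : ℚ) = 0 := by
        push_cast
        calc ∑ j, ((B i j : ℤ) : ℚ) * ((z j : ℤ) : ℚ) =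
            ((b : ℤ) : ℚ) * ∑ j, B.map (Int.cast : ℤ → ℚ) i j * x j := by
              rw [Finset.mul_sum]
              refine Finset.sum_congr rfl fun j _ => ?_
              rw [hz', map_apply]
              ring
          _ = 0 := by rw [h3, mul_zero]
      exact_mod_cast h4
    have h3 : z = 0 := by
      by_contra h4
      exact hB z h4 h2
    funext i
    have h4 := hz' i
    rw [h3, Pi.zero_apply, Int.cast_zero] at h4
    have h5 : ((b : ℤ) : ℚ) ≠ 0 := by
      exact_mod_cast nonZeroDivisors.ne_zero b.2
    rw [Pi.zero_apply]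
    exact (mul_eq_zero.1 h4.symm).resolve_left h5
  obtain ⟨σ₀, hσ₀⟩ := exists_minor _ h1
  have h2 : ((B.map (Int.cast : ℤ → ℝ)).submatrix σ₀ id).det ≠ 0 := by
    have h3 : ((B.submatrix σ₀ id).det : ℚ) = ((B.map (Int.cast : ℤ → ℚ)).submatrix σ₀ id).det := by
      have h4 := RingHom.map_det (Int.castRingHom ℚ) (B.submatrix σ₀ id)
      exact h4
    have h4 : ((B.submatrix σ₀ id).det : ℝ) = ((B.map (Int.cast : ℤ → ℝ)).submatrix σ₀ id).det := by
      have h4 := RingHom.map_det (Int.castRingHom ℝ) (B.submatrix σ₀ id)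
      exact h4
    rw [← h3] at hσ₀
    rw [← h4]
    have h5 : (B.submatrix σ₀ id).det ≠ 0 := by exact_mod_cast hσ₀
    exact_mod_cast h5
  have h3 : ∀ x : Fin k → ℝ, B.map (Int.cast : ℤ → ℝ) *ᵥ x = 0 → x = 0 := by
    intro x hx
    refine Matrix.eq_zero_of_mulVec_eq_zero h2 ?_
    funext i
    exact congrFun hx (σ₀ i)
  apply exists_minor
  intro x hx
  apply h3
  rw [← Matrix.mulVec_mulVec] at hx
  exact Matrix.eq_zero_of_mulVec_eq_zero hy hx

end Pool.Agent.H81.GF
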