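import Pool.Agent.H81.GF.Def
import Pool.Agent.H89.CSD.Mink

/-!
# Gsemi: semistability of rational subspaces

`y` with `Pos c`, `B` an integer `d × k` matrix, injective on `ℤ ^ k`, `M = y * im B`, `N = M.submatrix σ id` invertible,
`M = C * N`, and `C i j ≠ 0 → φ i ≤ φ (σ j)`.  Claim: `k ∑_i φ i ≤ d ∑_j φ (σ j)`.
Proof.  Let `A = (∑_j φ (σ j)) / k`, so `∑_j (φ (σ j) - A) = 0`.  Suppose `∑_i φ i > d A`.  For `t > 0` use
`minkowski_forms` for `N` with `τ j = R exp (- t (φ (σ j) - A))`, `R ^ k > |det N|` (for example `R = |det N| + 1 ≥ 1`, `k ≥ 1`):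
`∏ τ j = R ^ k`.  There is an integer `x ≠ 0` with `|(N x) j| ≤ τ j`.  For every `i`
`|(M x) i| ≤ ∑_j |C i j| |(N x) j| ≤ S R exp (- t (φ i - A))` with `S = 1 + ∑ |C i j|` (all `i`, `j`), because `C i j ≠ 0` gives
`φ (σ j) ≥ φ i`.  `M x = y (B x)`, `B x ≠ 0`, so
`c ≤ |P y (ic (B *ᵥ x))| = ∏ |(M x) i| ≤ (S R) ^ d exp (- t (∑_i φ i - d A))`, false for large `t`.
-/

set_option autoImplicit false

namespace Pool.Agent.H81.GF

open Matrix Filter Topology Pool.Agent.H89.CSD Pool.Agent.H46.RG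

variable {d : ℕ}

theorem gsemi {k : ℕ} (hk : 0 < k) {c : ℝ} (hc : 0 < c) {y : Matrix (Fin d) (Fin d) ℝ}
    (hp : Pos c y) (B : Matrix (Fin d) (Fin k) ℤ)
    (hB : ∀ x : Fin k → ℤ, x ≠ 0 → B *ᵥ x ≠ 0) (σ : Fin k → Fin d)
    (C : Matrix (Fin d) (Fin k) ℝ)
    (hdet : ((y * B.map (Int.cast : ℤ → ℝ)).submatrix σ id).det ≠ 0)
    (hM : y * B.map (Int.cast : ℤ → ℝ) = C * (y * B.map (Int.cast : ℤ → ℝ)).submatrix σ id)
    (φ : Fin d → ℝ) (hφ : ∀ i j, C i j ≠ 0 → φ i ≤ φ (σ j)) :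
    (k : ℝ) * ∑ i, φ i ≤ d * ∑ j, φ (σ j) := by
  obtain ⟨M, hMd⟩ : ∃ M, M = y * B.map (Int.cast : ℤ → ℝ) := ⟨_, rfl⟩
  rw [← hMd] at hdet hM
  obtain ⟨N, hNd⟩ : ∃ N, N = M.submatrix σ id := ⟨_, rfl⟩
  rw [← hNd] at hdet hM
  by_contra hcon
  rw [not_le] at hcon
  have hk0 : (0 : ℝ) < k := by exact_mod_cast hk
  obtain ⟨A, hA⟩ : ∃ A : ℝ, A = (∑ j, φ (σ j)) / k := ⟨_, rfl⟩
  have hAk : ∑ j, (φ (σ j) - A) = 0 := by
    rw [Finset.sum_sub_distrib, Finset.sum_const, Finset.card_univ, Fintype.card_fin,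
      nsmul_eq_mul, hA, mul_div_cancel₀ _ hk0.ne', sub_self]
  obtain ⟨Δ, hΔ⟩ : ∃ Δ : ℝ, Δ = ∑ i, φ i - d * A := ⟨_, rfl⟩
  have hΔ0 : 0 < Δ := by
    rw [hΔ, hA, sub_pos, mul_div_assoc', div_lt_iff₀ hk0]
    linarith
  obtain ⟨R, hR⟩ : ∃ R : ℝ, R = |N.det| + 1 := ⟨_, rfl⟩
  have hR1 : 1 ≤ R := by rw [hR]; linarith [abs_nonneg N.det]
  have hR0 : 0 < R := zero_lt_one.trans_le hR1
  obtain ⟨S, hS⟩ : ∃ S : ℝ, S = 1 + ∑ i, ∑ j, |C i j| := ⟨_, rfl⟩
  have hSC : ∀ i, ∑ j, |C i j| ≤ S := by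
    intro i
    have h1 := Finset.single_le_sum (f := fun i => ∑ j, |C i j|)
      (fun i _ => Finset.sum_nonneg fun j _ => abs_nonneg (C i j)) (Finset.mem_univ i)
    rw [hS]
    linarith
  have hS0 : 0 < S := by
    rw [hS]
    have : 0 ≤ ∑ i, ∑ j, |C i j| :=
      Finset.sum_nonneg fun i _ => Finset.sum_nonneg fun j _ => abs_nonneg (C i j)
    linarith
  obtain ⟨X, hX⟩ : ∃ X : ℝ, X = (S * R) ^ d / c := ⟨_, rfl⟩
  have hX0 : 0 < X := by rw [hX]; exact div_pos (pow_pos (mul_pos hS0 hR0) d) hc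
  obtain ⟨t, ht⟩ : ∃ t : ℝ, t = X / Δ := ⟨_, rfl⟩
  have ht0 : 0 < t := by rw [ht]; exact div_pos hX0 hΔ0
  have htΔ : t * Δ = X := by rw [ht, div_mul_cancel₀ _ hΔ0.ne']
  have hprod : ∏ j, R * Real.exp (-t * (φ (σ j) - A)) = R ^ k := by
    rw [Finset.prod_mul_distrib, Finset.prod_const, Finset.card_univ, Fintype.card_fin,
      ← Real.exp_sum, ← Finset.mul_sum, hAk, mul_zero, Real.exp_zero, mul_one]
  obtain ⟨x, hx0, hx⟩ := minkowski_forms N hdet (fun j => R * Real.exp (-t * (φ (σ j) - A)))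
    (fun j => mul_pos hR0 (Real.exp_pos _)) (by
      rw [hprod]
      have h1 : R ≤ R ^ k := le_self_pow₀ hR1 hk.ne'
      linarith)
  have hrow : ∀ i, |∑ j, M i j * (x j : ℝ)| ≤ S * R * Real.exp (-t * (φ i - A)) := by
    intro i
    have h1 : ∑ j, M i j * (x j : ℝ) = ∑ l, C i l * ∑ j, N l j * (x j : ℝ) := by
      rw [hM]
      simp only [mul_apply, Finset.mul_sum, Finset.sum_mul]
      rw [Finset.sum_comm]
      refine Finset.sum_congr rfl fun l _ => Finset.sum_congr rfl fun j _ => ?_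
      ring
    rw [h1]
    refine (Finset.abs_sum_le_sum_abs _ _).trans ?_
    have h2 : ∀ l ∈ (Finset.univ : Finset (Fin k)), |C i l * ∑ j, N l j * (x j : ℝ)| ≤
        |C i l| * (R * Real.exp (-t * (φ i - A))) := by
      intro l _
      by_cases hC0 : C i l = 0
      · rw [hC0, zero_mul, abs_zero, zero_mul]
      rw [abs_mul]
      refine mul_le_mul_of_nonneg_left ((hx l).trans ?_) (abs_nonneg _)
      refine mul_le_mul_of_nonneg_left ?_ hR0.le
      rw [Real.exp_le_exp]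
      have h3 := hφ i l hC0
      nlinarith
    refine (Finset.sum_le_sum h2).trans ?_
    rw [← Finset.sum_mul, mul_assoc]
    exact mul_le_mul_of_nonneg_right (hSC i) (mul_pos hR0 (Real.exp_pos _)).le
  have hBx := hp (B *ᵥ x) (hB x hx0)
  have hP : P y (ic (B *ᵥ x)) = ∏ i, ∑ j, M i j * (x j : ℝ) := by
    unfold P ic
    refine Finset.prod_congr rfl fun i _ => ?_
    rw [hMd]
    have h1 : ∀ j, (((B *ᵥ x) j : ℤ) : ℝ) = ∑ l, (B j l : ℝ) * (x l : ℝ) := by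
      intro j
      rw [mulVec, dotProduct]
      push_cast
      rfl
    simp only [h1, mul_apply, Finset.mul_sum, Finset.sum_mul, map_apply]
    rw [Finset.sum_comm]
    refine Finset.sum_congr rfl fun l _ => Finset.sum_congr rfl fun j _ => ?_
    ring
  rw [hP, Finset.abs_prod] at hBx
  have h1 : ∏ i, |∑ j, M i j * (x j : ℝ)| ≤ ∏ i, (S * R * Real.exp (-t * (φ i - A))) :=
    Finset.prod_le_prod (fun i _ => abs_nonneg _) fun i _ => hrow i
  have h2 : ∏ i, (S * R * Real.exp (-t * (φ i - A))) = (S * R) ^ d * Real.exp (-X) := by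
    rw [Finset.prod_mul_distrib, Finset.prod_const, Finset.card_univ, Fintype.card_fin,
      ← Real.exp_sum, ← Finset.mul_sum, Finset.sum_sub_distrib, Finset.sum_const,
      Finset.card_univ, Fintype.card_fin, nsmul_eq_mul, ← hΔ, neg_mul, htΔ]
  rw [h2] at h1
  have h3 : (S * R) ^ d = X * c := by rw [hX, div_mul_cancel₀ _ hc.ne']
  have h4 : X * Real.exp (-X) < 1 := by
    have h5 := Real.add_one_le_exp X
    have h6 : Real.exp X * Real.exp (-X) = 1 := by rw [← Real.exp_add, add_neg_cancel, Real.exp_zero]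
    have h7 := Real.exp_pos (-X)
    nlinarith
  have h5 : c ≤ X * c * Real.exp (-X) := by
    rw [← h3]
    exact hBx.trans h1
  nlinarith

end Pool.Agent.H81.GF
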