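import Pool.Agent.H81.GF.Def

/-!
# Gsub: an invariant sublattice of a reducible integral matrix

Suppose the characteristic polynomial `f` of `A = (U : ℚ-matrix)` is not irreducible, `0 < d`.  Then there is a nonzero
polynomial `p` over `ℚ` of degree `< d` and `v ≠ 0` with `(aeval A p) *ᵥ v = 0`: otherwise all these `aeval A p` are
injective; `f` is monic of degree `d > 0`, not a unit; if `f = q r` with `q, r` of degree `< d` then
`aeval A q * aeval A r = 0` (Cayley-Hamilton, `Matrix.aeval_self_charpoly`) gives a contradiction (compare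
`irreducible_of_pos` in `H89.CSD.Irr`).
`W` = span of `A ^ i *ᵥ v`, `i < natDegree p` (or `i : ℕ`): a subspace of `ℚ ^ d` of dimension `≤ natDegree p < d`, nonzero,
invariant under `A` (division by `p`), and `A W = W` as `A` is injective and `W` finite-dimensional.
`L` = the integer vectors in `W` (a `Submodule ℤ (Fin d → ℤ)`, `comap`), free of finite rank
(`Submodule.nonempty_basis_of_pid`, `Module.Free`), `U L = L`.  `L ≠ 0` (clear denominators).  Let `B` have the vectors of a
`ℤ`-basis of `L` as columns, `k` = its size, `k > 0`.  The columns are linearly independent over `ℤ`, hence over `ℚ`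
(`LinearIndependent.iff_fractionRing`), and lie in `W`, so `k ≤ dim W < d`.  `Γ` = the matrix of `U` on `L` in this basis,
invertible because `U⁻¹ L ⊆ L`.
-/

set_option autoImplicit false

namespace Pool.Agent.H81.GF

open Matrix Filter Topology Pool.Agent.H89.CSD Pool.Agent.H46.RG

variable {d : ℕ}

private theorem gsub_poly (hd : 0 < d) (A : Matrix (Fin d) (Fin d) ℚ)
    (h : ¬ Irreducible A.charpoly) :
    ∃ (p : Polynomial ℚ) (v : Fin d → ℚ), p ≠ 0 ∧ p.natDegree < d ∧ v ≠ 0 ∧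
      (Polynomial.aeval A p) *ᵥ v = 0 := by
  have hmon := A.charpoly_monic
  have hdeg : A.charpoly.natDegree = d := by
    rw [Matrix.charpoly_natDegree_eq_dim, Fintype.card_fin]
  have hne : A.charpoly ≠ 0 := hmon.ne_zero
  have hnu : ¬ IsUnit A.charpoly := fun hu => by
    have := Polynomial.natDegree_eq_zero_of_isUnit hu
    omega
  rw [irreducible_iff] at h
  push Not at h
  obtain ⟨a, b, hab, ha, hb⟩ := h hnu
  have ha0 : a ≠ 0 := by
    rintro rfl
    rw [zero_mul] at hab
    exact hne hab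
  have hb0 : b ≠ 0 := by
    rintro rfl
    rw [mul_zero] at hab
    exact hne hab
  have hpos : ∀ q : Polynomial ℚ, q ≠ 0 → ¬ IsUnit q → 0 < q.natDegree := by
    intro q hq hqu
    by_contra hcon
    apply hqu
    rw [Polynomial.isUnit_iff_degree_eq_zero, Polynomial.degree_eq_natDegree hq]
    have : q.natDegree = 0 := by omega
    rw [this]
    rfl
  have hda := hpos a ha0 ha
  have hdb := hpos b hb0 hb
  have hsum : a.natDegree + b.natDegree = d := by
    rw [← Polynomial.natDegree_mul ha0 hb0, ← hab, hdeg]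
  have hzero : Polynomial.aeval A a * Polynomial.aeval A b = 0 := by
    rw [← map_mul, ← hab, Matrix.aeval_self_charpoly]
  by_cases hc : ∀ j : Fin d, (Polynomial.aeval A b) *ᵥ (Pi.single j 1) = 0
  · refine ⟨b, Pi.single ⟨0, hd⟩ 1, hb0, by omega, ?_, hc _⟩
    intro h0
    have := congrFun h0 ⟨0, hd⟩
    simp at this
  · push Not at hc
    obtain ⟨j, hj⟩ := hc
    refine ⟨a, (Polynomial.aeval A b) *ᵥ (Pi.single j 1), ha0, by omega, hj, ?_⟩
    rw [Matrix.mulVec_mulVec, hzero, Matrix.zero_mulVec]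

/-- the map `q ↦ q(A) v` -/
private noncomputable def gsubMap (A : Matrix (Fin d) (Fin d) ℚ) (v : Fin d → ℚ) :
    Polynomial ℚ →ₗ[ℚ] (Fin d → ℚ) where
  toFun q := (Polynomial.aeval A q) *ᵥ v
  map_add' p q := by rw [map_add, Matrix.add_mulVec]
  map_smul' c q := by
    rw [map_smul, Matrix.smul_mulVec]
    rfl

private theorem gsubMap_apply (A : Matrix (Fin d) (Fin d) ℚ) (v : Fin d → ℚ)
    (q : Polynomial ℚ) : gsubMap A v q = (Polynomial.aeval A q) *ᵥ v := rfl

private theorem gsub_rank (A : Matrix (Fin d) (Fin d) ℚ) (v : Fin d → ℚ) (p : Polynomial ℚ)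
    (hp : p ≠ 0) (h : (Polynomial.aeval A p) *ᵥ v = 0) :
    Module.finrank ℚ (LinearMap.range (gsubMap A v)) ≤ p.natDegree := by
  have hle : LinearMap.range (gsubMap A v) ≤
      (Polynomial.degreeLT ℚ p.natDegree).map (gsubMap A v) := by
    rintro _ ⟨q, rfl⟩
    refine ⟨q % p, ?_, ?_⟩
    · have h1 := Polynomial.degree_mod_lt q hp
      rw [Polynomial.degree_eq_natDegree hp] at h1
      exact Polynomial.mem_degreeLT.2 h1
    · have h1 : p * (q / p) + q % p = q := EuclideanDomain.div_add_mod q p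
      conv_rhs => rw [← h1]
      rw [map_add, gsubMap_apply A v (p * (q / p)), mul_comm p, map_mul, ← Matrix.mulVec_mulVec, h,
        Matrix.mulVec_zero, zero_add]
  have hfin : Module.Finite ℚ (Polynomial.degreeLT ℚ p.natDegree) :=
    Module.Finite.equiv (Polynomial.degreeLTEquiv ℚ p.natDegree).symm
  calc Module.finrank ℚ (LinearMap.range (gsubMap A v)) ≤
      Module.finrank ℚ ((Polynomial.degreeLT ℚ p.natDegree).map (gsubMap A v)) :=
        Submodule.finrank_mono hle
    _ ≤ Module.finrank ℚ (Polynomial.degreeLT ℚ p.natDegree) := Submodule.finrank_map_le _ _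
    _ = p.natDegree := by
        rw [LinearEquiv.finrank_eq (Polynomial.degreeLTEquiv ℚ p.natDegree), Module.finrank_fin_fun]

private theorem gsub_inv (A : Matrix (Fin d) (Fin d) ℚ) (v : Fin d → ℚ) :
    ∀ w ∈ LinearMap.range (gsubMap A v), A *ᵥ w ∈ LinearMap.range (gsubMap A v) := by
  rintro _ ⟨q, rfl⟩
  refine ⟨Polynomial.X * q, ?_⟩
  rw [gsubMap_apply, gsubMap_apply, map_mul, Polynomial.aeval_X, Matrix.mulVec_mulVec]

private theorem gsub_inv' (A : Matrix (Fin d) (Fin d) ℚ) (hA : IsUnit A.det)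
    (W : Submodule ℚ (Fin d → ℚ)) (hW : ∀ w ∈ W, A *ᵥ w ∈ W) : ∀ w ∈ W, A⁻¹ *ᵥ w ∈ W := by
  intro w hw
  let f : W →ₗ[ℚ] W := (A.mulVecLin).restrict (p := W) (q := W) (fun w hw => hW w hw)
  have hinj : Function.Injective f := by
    intro x y hxy
    have h1 : A *ᵥ (x : Fin d → ℚ) = A *ᵥ (y : Fin d → ℚ) := congrArg Subtype.val hxy
    have h2 := congrArg (fun z => A⁻¹ *ᵥ z) h1
    simp only [Matrix.mulVec_mulVec, Matrix.nonsing_inv_mul _ hA, Matrix.one_mulVec] at h2
    exact Subtype.ext h2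
  obtain ⟨x, hx⟩ := (LinearMap.injective_iff_surjective.1 hinj) ⟨w, hw⟩
  have h1 : A *ᵥ (x : Fin d → ℚ) = w := congrArg Subtype.val hx
  rw [← h1, Matrix.mulVec_mulVec, Matrix.nonsing_inv_mul _ hA, Matrix.one_mulVec]
  exact x.2

/-- the rational vector with the integer coordinates `x` -/
private def gsubC (d : ℕ) : (Fin d → ℤ) →ₗ[ℤ] (Fin d → ℚ) where
  toFun x := fun i => (x i : ℚ)
  map_add' x y := by
    ext i
    simp
  map_smul' c x := by
    ext i
    simp

private theorem gsubC_apply (x : Fin d → ℤ) (i : Fin d) : gsubC d x i = (x i : ℚ) := rfl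

private theorem gsubC_inj : Function.Injective (gsubC d) := by
  intro x y h
  ext i
  have := congrFun h i
  rw [gsubC_apply, gsubC_apply] at this
  exact_mod_cast this

private theorem gsubC_mulVec (T : Matrix (Fin d) (Fin d) ℤ) (x : Fin d → ℤ) :
    gsubC d (T *ᵥ x) = (T.map (Int.cast : ℤ → ℚ)) *ᵥ gsubC d x := by
  ext i
  rw [gsubC_apply, Matrix.mulVec, Matrix.mulVec, dotProduct, dotProduct]
  push_cast
  rfl

theorem gsub (hd : 0 < d) (U : (Matrix (Fin d) (Fin d) ℤ)ˣ)
    (h : ¬ Irreducible ((U : Matrix (Fin d) (Fin d) ℤ).map (Int.cast : ℤ → ℚ)).charpoly) :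
    ∃ (k : ℕ) (B : Matrix (Fin d) (Fin k) ℤ) (Γ : Matrix (Fin k) (Fin k) ℤ), 0 < k ∧ k < d ∧
      (∀ x : Fin k → ℤ, x ≠ 0 → B *ᵥ x ≠ 0) ∧
      (U : Matrix (Fin d) (Fin d) ℤ) * B = B * Γ ∧ IsUnit Γ.det := by
  classical
  set T : Matrix (Fin d) (Fin d) ℤ := (U : Matrix (Fin d) (Fin d) ℤ) with hT
  set T' : Matrix (Fin d) (Fin d) ℤ :=
    ((U⁻¹ : (Matrix (Fin d) (Fin d) ℤ)ˣ) : Matrix (Fin d) (Fin d) ℤ) with hT'
  have hTT' : T * T' = 1 := Units.mul_inv U
  have hT'T : T' * T = 1 := Units.inv_mul U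
  set A : Matrix (Fin d) (Fin d) ℚ := T.map (Int.cast : ℤ → ℚ) with hA
  have hmapmul : ∀ X Y : Matrix (Fin d) (Fin d) ℤ, (X * Y).map (Int.cast : ℤ → ℚ) =
      X.map (Int.cast : ℤ → ℚ) * Y.map (Int.cast : ℤ → ℚ) := by
    intro X Y
    ext i j
    simp [Matrix.mul_apply]
  have hone : (1 : Matrix (Fin d) (Fin d) ℤ).map (Int.cast : ℤ → ℚ) = 1 := by
    ext i j
    simp [Matrix.one_apply]
  have hAA' : A * T'.map (Int.cast : ℤ → ℚ) = 1 := by
    rw [hA, ← hmapmul, hTT', hone]
  have hAdet : IsUnit A.det := Matrix.isUnit_det_of_right_inverse hAA'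
  have hAinv : A⁻¹ = T'.map (Int.cast : ℤ → ℚ) := Matrix.inv_eq_right_inv hAA'
  obtain ⟨p, v, hp0, hpd, hv0, hpv⟩ := gsub_poly hd A h
  set W : Submodule ℚ (Fin d → ℚ) := LinearMap.range (gsubMap A v) with hW
  have hWrank : Module.finrank ℚ W ≤ p.natDegree := gsub_rank A v p hp0 hpv
  have hW1 : ∀ w ∈ W, A *ᵥ w ∈ W := gsub_inv A v
  have hW2 : ∀ w ∈ W, A⁻¹ *ᵥ w ∈ W := gsub_inv' A hAdet W hW1
  have hvW : v ∈ W := ⟨1, by rw [gsubMap_apply, map_one, Matrix.one_mulVec]⟩
  -- the lattice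
  set L : Submodule ℤ (Fin d → ℤ) := (W.restrictScalars ℤ).comap (gsubC d) with hL
  have hLmem : ∀ x, x ∈ L ↔ gsubC d x ∈ W := fun x => Iff.rfl
  have hLT : ∀ x ∈ L, T.mulVecLin x ∈ L := by
    intro x hx
    rw [hLmem, Matrix.mulVecLin_apply, gsubC_mulVec]
    exact hW1 _ hx
  have hLT' : ∀ x ∈ L, T'.mulVecLin x ∈ L := by
    intro x hx
    rw [hLmem, Matrix.mulVecLin_apply, gsubC_mulVec, ← hAinv]
    exact hW2 _ hx
  let f : L →ₗ[ℤ] L := T.mulVecLin.restrict hLT
  let g : L →ₗ[ℤ] L := T'.mulVecLin.restrict hLT'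
  have hfg : f ∘ₗ g = LinearMap.id := by
    ext x : 1
    apply Subtype.ext
    show T *ᵥ (T' *ᵥ (x : Fin d → ℤ)) = x
    rw [Matrix.mulVec_mulVec, hTT', Matrix.one_mulVec]
  let b : Module.Basis (Fin (Module.finrank ℤ L)) ℤ L := Module.finBasis ℤ L
  have hli : LinearIndependent ℤ fun j => gsubC d (b j : Fin d → ℤ) := by
    have h1 : LinearIndependent ℤ fun j => (b j : Fin d → ℤ) :=
      b.linearIndependent.map' L.subtype (Submodule.ker_subtype L)
    exact h1.map' (gsubC d) (LinearMap.ker_eq_bot.2 gsubC_inj)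
  have hli2 : LinearIndependent ℚ fun j => gsubC d (b j : Fin d → ℤ) :=
    (LinearIndependent.iff_fractionRing ℤ ℚ).1 hli
  have hli3 : LinearIndependent ℚ
      fun j => (⟨gsubC d (b j : Fin d → ℤ), (hLmem _).1 (b j).2⟩ : W) :=
    LinearIndependent.of_comp W.subtype hli2
  have hk : Module.finrank ℤ L < d := by
    have h1 := hli3.fintype_card_le_finrank
    rw [Fintype.card_fin] at h1
    omega
  have hk0 : 0 < Module.finrank ℤ L := by
    obtain ⟨N, hN⟩ := IsLocalization.exist_integer_multiples_of_finite (nonZeroDivisors ℤ) v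
    choose x hx using hN
    have hx' : ∀ i, ((x i : ℤ) : ℚ) = ((N : ℤ) : ℚ) * v i := by
      intro i
      have h1 := hx i
      simp only [algebraMap_int_eq, eq_intCast] at h1
      rw [h1, zsmul_eq_mul]
    have hN0 : ((N : ℤ) : ℚ) ≠ 0 := by
      have := nonZeroDivisors.ne_zero N.2
      exact_mod_cast this
    have hxc : gsubC d x = ((N : ℤ) : ℚ) • v := by
      ext i
      rw [gsubC_apply, hx', Pi.smul_apply, smul_eq_mul]
    have hxL : x ∈ L := by
      rw [hLmem, hxc]
      exact W.smul_mem _ hvW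
    have hx0 : x ≠ 0 := by
      intro h0
      rw [h0, map_zero] at hxc
      exact (smul_ne_zero hN0 hv0) hxc.symm
    have : Nontrivial L := ⟨⟨x, hxL⟩, 0, fun h0 => hx0 (congrArg Subtype.val h0)⟩
    exact Module.finrank_pos
  set k := Module.finrank ℤ L with hkdef
  have hB : ∀ x : Fin k → ℤ, (Matrix.of fun i j => (b j : Fin d → ℤ) i) *ᵥ x =
      ((∑ j, x j • b j : L) : Fin d → ℤ) := by
    intro x
    ext i
    rw [Submodule.coe_sum, Finset.sum_apply, Matrix.mulVec, dotProduct]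
    apply Finset.sum_congr rfl
    intro j _
    rw [Matrix.of_apply, Submodule.coe_smul, Pi.smul_apply, smul_eq_mul, mul_comm]
  refine ⟨k, Matrix.of fun i j => (b j : Fin d → ℤ) i, LinearMap.toMatrix b b f, hk0, hk, ?_, ?_,
    ?_⟩
  · intro x hx h0
    rw [hB] at h0
    have h1 : (∑ j, x j • b j : L) = 0 := Subtype.ext h0
    apply hx
    ext j
    exact Fintype.linearIndependent_iff.1 b.linearIndependent x h1 j
  · ext i j
    have h1 : ∀ y : Fin k → ℤ, (Matrix.of fun i j => (b j : Fin d → ℤ) i) *ᵥ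
        y = ((∑ l, y l • b l : L) : Fin d → ℤ) := hB
    have h2 : ((Matrix.of fun i j => (b j : Fin d → ℤ) i) * LinearMap.toMatrix b b f) i j =
        ((Matrix.of fun i j => (b j : Fin d → ℤ) i) *ᵥ
          (fun l => LinearMap.toMatrix b b f l j)) i := rfl
    rw [h2, h1]
    have h3 : (∑ l, LinearMap.toMatrix b b f l j • b l : L) = f (b j) := by
      have h4 := b.sum_repr (f (b j))
      conv_rhs => rw [← h4]
      apply Finset.sum_congr rfl
      intro l _
      rw [LinearMap.toMatrix_apply]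
    rw [h3]
    rfl
  · have h1 : LinearMap.toMatrix b b f * LinearMap.toMatrix b b g = 1 := by
      rw [← LinearMap.toMatrix_comp b b b, hfg, LinearMap.toMatrix_id]
    exact Matrix.isUnit_det_of_right_inverse h1

end Pool.Agent.H81.GF
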