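import Pool.Agent.H81.GF.Gsel
import Pool.Agent.H81.GF.Gsemi
import Pool.Agent.H81.GF.Gdet
import Pool.Agent.H81.GF.Gsub
import Pool.Agent.H81.GF.Gmin

/-!
# Girr: the characteristic polynomial of a close return is irreducible

`δ` from `gdet d`.  The numbers `|∑ j, w (σ j)|`, `σ : Fin k → Fin d`, `k ≤ d`, are finitely many; let `μ > 0` be smaller than
all nonzero ones and `M₀` with `M₀ μ > 1`.  Suppose `m ≥ M₀` and the polynomial is reducible; `gsub`: `k, B, Γ`; `gmin`,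
`gsel` for `M = y * im B`: `σ, C`.  `M * Γ = y * im U * B = diagonal (gflow w (-m)) * ((1 + E) * M)`, so `gdet` gives
`m |∑ j, w (σ j)| ≤ 1`, hence `∑ j, w (σ j) = 0` by the choice of `M₀`.
Let `I = {i | c₀ < w i}`, `χ` its indicator, and `η > 0` at most `w a - w b` for all `a ∈ I`, `b ∉ I` (finitely many positive
numbers).  `gsemi` with `φ = χ`: `k |I| ≤ d s`, `s = #{j | σ j ∈ I}` (`w i ≤ w (σ j)` and `i ∈ I` give `σ j ∈ I`).  `gsemi` with
`φ = w - η χ` (if `w i ≤ w (σ j)` then `φ i ≤ φ (σ j)`: the only critical case is `i ∉ I`, `σ j ∈ I`, where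
`w (σ j) - w i ≥ η`): `k (0 - η |I|) ≤ d (0 - η s)`, so `d s ≤ k |I|`.  So `d s = k |I|`, `d ∣ k |I|`, `d ∣ k`
(coprime), a contradiction to `0 < k < d`.
-/

set_option autoImplicit false

namespace Pool.Agent.H81.GF

open Matrix Filter Topology Pool.Agent.H89.CSD Pool.Agent.H46.RG

variable {d : ℕ}

private theorem girr_pos_min {ι : Type*} [Finite ι] (f : ι → ℝ) :
    ∃ η : ℝ, 0 < η ∧ ∀ i, 0 < f i → η ≤ f i := by
  classical
  have := Fintype.ofFinite ι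
  by_cases h : (Finset.univ.filter fun i => 0 < f i).Nonempty
  · obtain ⟨a, ha, hmin⟩ := Finset.exists_min_image _ f h
    exact ⟨f a, (Finset.mem_filter.1 ha).2, fun i hi =>
      hmin i (Finset.mem_filter.2 ⟨Finset.mem_univ i, hi⟩)⟩
  · refine ⟨1, one_pos, fun i hi => ?_⟩
    exact absurd ⟨i, Finset.mem_filter.2 ⟨Finset.mem_univ i, hi⟩⟩ h

private theorem girr_cast {a b c : ℕ} (B : Matrix (Fin a) (Fin b) ℤ) (Γ : Matrix (Fin b) (Fin c) ℤ) :
    (B * Γ).map (Int.cast : ℤ → ℝ) = B.map (Int.cast : ℤ → ℝ) * Γ.map (Int.cast : ℤ → ℝ) := by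
  ext i j
  simp [Matrix.mul_apply]

theorem girr (hd : 0 < d) {w : Fin d → ℝ} (hw : ∑ i, w i = 0) {c₀ : ℝ}
    (hI : (Finset.univ.filter fun i => c₀ < w i).card.Coprime d) :
    ∃ (δ : ℝ) (M₀ : ℕ), 0 < δ ∧ ∀ (c : ℝ), 0 < c → ∀ (y E : Matrix (Fin d) (Fin d) ℝ),
      y.det ≠ 0 → Pos c y → (∀ i j, |E i j| < δ) → (∀ a b, w b < w a → E a b = 0) →
      ∀ (m : ℕ) (U : (Matrix (Fin d) (Fin d) ℤ)ˣ), M₀ ≤ m →
      y * im (U : Matrix (Fin d) (Fin d) ℤ) = diagonal (gflow w (-m)) * ((1 + E) * y) →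
      Irreducible ((U : Matrix (Fin d) (Fin d) ℤ).map (Int.cast : ℤ → ℚ)).charpoly := by
  classical
  obtain ⟨δ, hδ, hdet⟩ := gdet d
  obtain ⟨μ, hμ, hμmin⟩ := girr_pos_min
    (fun p : (Σ k : Fin (d + 1), (Fin k → Fin d)) => |∑ j, w (p.2 j)|)
  obtain ⟨M₀, hM₀⟩ := exists_nat_gt (1 / μ)
  refine ⟨δ, M₀, hδ, ?_⟩
  intro c hc y E hy hp hE hE0 m U hm hret
  by_contra hirr
  obtain ⟨k, B, Γ, hk0, hkd, hB, hUB, hΓ⟩ := gsub hd U hirr
  obtain ⟨M, hM⟩ : ∃ M : Matrix (Fin d) (Fin k) ℝ, M = y * B.map (Int.cast : ℤ → ℝ) := ⟨_, rfl⟩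
  obtain ⟨σ₀, hσ₀⟩ := gmin hy B hB
  rw [← hM] at hσ₀
  obtain ⟨σ, C, hσ, hMC, hC1, hC2, hC3⟩ := gsel w M ⟨σ₀, hσ₀⟩
  have hMΓ : M * Γ.map (Int.cast : ℤ → ℝ) = diagonal (gflow w (-m)) * ((1 + E) * M) := by
    rw [hM, Matrix.mul_assoc, ← girr_cast, ← hUB, girr_cast, ← Matrix.mul_assoc]
    change y * im (U : Matrix (Fin d) (Fin d) ℤ) * B.map (Int.cast : ℤ → ℝ) = _
    rw [hret]
    simp only [Matrix.mul_assoc]
  have hΓ' : |(Γ.map (Int.cast : ℤ → ℝ)).det| = 1 := by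
    have h1 : (Γ.map (Int.cast : ℤ → ℝ)).det = ((Γ.det : ℤ) : ℝ) := by
      have := (Int.castRingHom ℝ).map_det Γ
      simpa [RingHom.mapMatrix_apply] using this.symm
    rw [h1]
    rcases Int.isUnit_iff.1 hΓ with h | h <;> simp [h]
  have h1 := hdet k hkd.le w m E M C σ (Γ.map (Int.cast : ℤ → ℝ)) hE hE0 hσ hMC hC1 hC2 hC3 hΓ' hMΓ
  have hsum : ∑ j, w (σ j) = 0 := by
    by_contra hne
    have h2 : μ ≤ |∑ j, w (σ j)| :=
      hμmin ⟨⟨k, by omega⟩, σ⟩ (abs_pos.2 hne)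
    have h3 : (M₀ : ℝ) ≤ m := by exact_mod_cast hm
    have h4 : 1 < (M₀ : ℝ) * μ := by
      rw [div_lt_iff₀ hμ] at hM₀
      exact hM₀
    have h5 : (M₀ : ℝ) * μ ≤ m * |∑ j, w (σ j)| :=
      mul_le_mul h3 h2 hμ.le (by positivity)
    linarith
  obtain ⟨η, hη, hηmin⟩ := girr_pos_min (fun p : Fin d × Fin d =>
    if c₀ < w p.1 ∧ ¬ c₀ < w p.2 then w p.1 - w p.2 else 0)
  have hη' : ∀ a b, c₀ < w a → ¬ c₀ < w b → η ≤ w a - w b := by
    intro a b ha hb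
    have h2 := hηmin (a, b)
    simp only [ha, hb, not_false_eq_true, and_self, if_true] at h2
    exact h2 (by
      have := not_lt.1 hb
      linarith)
  set χ : Fin d → ℝ := fun i => if c₀ < w i then 1 else 0 with hχ
  have hχsum : ∑ i, χ i = ((Finset.univ.filter fun i => c₀ < w i).card : ℝ) := by
    simp [hχ]
  have hχσ : ∑ j, χ (σ j) = ((Finset.univ.filter fun j => c₀ < w (σ j)).card : ℝ) := by
    simp [hχ]
  have hM' : y * B.map (Int.cast : ℤ → ℝ) = C * (y * B.map (Int.cast : ℤ → ℝ)).submatrix σ id := by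
    rw [← hM]
    exact hMC
  have hσ' : ((y * B.map (Int.cast : ℤ → ℝ)).submatrix σ id).det ≠ 0 := by
    rw [← hM]
    exact hσ
  have g1 := gsemi hk0 hc hp B hB σ C hσ' hM' χ (by
    intro i j hij
    have h2 := hC1 i j hij
    simp only [hχ]
    by_cases h3 : c₀ < w i
    · rw [if_pos h3, if_pos (h3.trans_le h2)]
    · rw [if_neg h3]
      split_ifs <;> norm_num)
  have g2 := gsemi hk0 hc hp B hB σ C hσ' hM' (fun i => w i - η * χ i) (by
    intro i j hij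
    have h2 := hC1 i j hij
    simp only [hχ]
    by_cases h3 : c₀ < w i
    · rw [if_pos h3, if_pos (h3.trans_le h2)]
      linarith
    · rw [if_neg h3]
      by_cases h4 : c₀ < w (σ j)
      · rw [if_pos h4]
        have := hη' (σ j) i h4 h3
        linarith
      · rw [if_neg h4]
        linarith)
  rw [Finset.sum_sub_distrib, Finset.sum_sub_distrib, hw, hsum, ← Finset.mul_sum,
    ← Finset.mul_sum, hχsum, hχσ] at g2
  rw [hχsum, hχσ] at g1
  set I : ℕ := (Finset.univ.filter fun i => c₀ < w i).card with hIdef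
  set s : ℕ := (Finset.univ.filter fun j => c₀ < w (σ j)).card with hsdef
  have g3 : (d : ℝ) * s ≤ k * I := by
    have h2 : η * ((d : ℝ) * s) ≤ η * (k * I) := by nlinarith
    exact le_of_mul_le_mul_left h2 hη
  have g4 : k * I = d * s := by
    have h2 : (k : ℝ) * I = d * s := le_antisymm g1 g3
    exact_mod_cast h2
  have g5 : d ∣ k * I := ⟨s, g4⟩
  have g6 : d ∣ k := (Nat.Coprime.dvd_of_dvd_mul_right hI.symm g5)
  have g7 := Nat.le_of_dvd hk0 g6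
  omega

end Pool.Agent.H81.GF
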