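import Pool.Agent.H81.GF.Def

/-!
# Gsc: choice of the magnification time

`gflow w t i * E i j * (gflow w t j)⁻¹ = exp (t (w i - w j)) E i j` (`gflow_ratio`).  For the finitely many pairs with
`w j < w i`, `E i j ≠ 0` let `τ i j = - log |E i j| / (w i - w j) > 0`, and let `t` be the minimum of these numbers
(`Finset.exists_min_image`, nonempty by `h`).  Then `|E i j| exp (t (w i - w j)) ≤ 1` for all of them with equality for
the minimising pair; for `w j < w i`, `E i j = 0` it is `0`; for `w i ≤ w j` the factor is `≤ 1` as `t ≥ 0`.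
-/

set_option autoImplicit false

namespace Pool.Agent.H81.GF

open Matrix Filter Topology Pool.Agent.H89.CSD Pool.Agent.H46.RG

variable {d : ℕ}

private theorem gsc_eq (w : Fin d → ℝ) (t : ℝ) (E : Matrix (Fin d) (Fin d) ℝ) (i j : Fin d) :
    |gflow w t i * E i j * (gflow w t j)⁻¹| = Real.exp (t * (w i - w j)) * |E i j| := by
  rw [← gflow_ratio, abs_mul, abs_mul, abs_of_pos (gflow_pos w t i),
    abs_of_pos (inv_pos.2 (gflow_pos w t j))]
  ring

theorem gscale (w : Fin d → ℝ) {E : Matrix (Fin d) (Fin d) ℝ} (hE : ∀ i j, |E i j| < 1)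
    (h : ∃ i j, w j < w i ∧ E i j ≠ 0) :
    ∃ t : ℝ, 0 ≤ t ∧
      (∀ i j, w j < w i → |gflow w t i * E i j * (gflow w t j)⁻¹| ≤ 1) ∧
      (∃ i j, w j < w i ∧ |gflow w t i * E i j * (gflow w t j)⁻¹| = 1) ∧
      (∀ i j, w i ≤ w j → |gflow w t i * E i j * (gflow w t j)⁻¹| ≤ |E i j|) := by
  classical
  simp only [gsc_eq]
  let S : Finset (Fin d × Fin d) :=
    Finset.univ.filter fun p => w p.2 < w p.1 ∧ E p.1 p.2 ≠ 0
  have hS : S.Nonempty := by
    obtain ⟨i, j, hij, hE0⟩ := h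
    refine ⟨(i, j), ?_⟩
    simp only [S, Finset.mem_filter, Finset.mem_univ, true_and]
    exact ⟨hij, hE0⟩
  obtain ⟨p, hp, hmin⟩ := Finset.exists_min_image S
    (fun p => -Real.log |E p.1 p.2| / (w p.1 - w p.2)) hS
  simp only [S, Finset.mem_filter, Finset.mem_univ, true_and] at hp hmin
  obtain ⟨hpw, hpE⟩ := hp
  have hlog : Real.log |E p.1 p.2| < 0 := Real.log_neg (abs_pos.2 hpE) (hE _ _)
  have ht : 0 ≤ -Real.log |E p.1 p.2| / (w p.1 - w p.2) :=
    div_nonneg (by linarith) (by linarith)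
  refine ⟨-Real.log |E p.1 p.2| / (w p.1 - w p.2), ht, ?_, ⟨p.1, p.2, hpw, ?_⟩, ?_⟩
  · intro i j hij
    by_cases h0 : E i j = 0
    · rw [h0]
      simp
    · have h1 := hmin (i, j) ⟨hij, h0⟩
      simp only at h1
      have hw : 0 < w i - w j := by linarith
      rw [le_div_iff₀ hw] at h1
      have h2 : Real.exp (-Real.log |E p.1 p.2| / (w p.1 - w p.2) *
          (w i - w j)) ≤ Real.exp (-Real.log |E i j|) := Real.exp_le_exp.2 h1
      have h3 : Real.exp (-Real.log |E i j|) * |E i j| = 1 := by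
        rw [Real.exp_neg, Real.exp_log (abs_pos.2 h0), inv_mul_cancel₀ (abs_ne_zero.2 h0)]
      calc _ ≤ Real.exp (-Real.log |E i j|) * |E i j| :=
            mul_le_mul_of_nonneg_right h2 (abs_nonneg _)
        _ = 1 := h3
  · have hw : w p.1 - w p.2 ≠ 0 := by
      have : 0 < w p.1 - w p.2 := by linarith
      exact this.ne'
    rw [div_mul_cancel₀ _ hw, Real.exp_neg, Real.exp_log (abs_pos.2 hpE),
      inv_mul_cancel₀ (abs_ne_zero.2 hpE)]
  · intro i j hij
    have h1 : -Real.log |E p.1 p.2| / (w p.1 - w p.2) * (w i - w j) ≤ 0 :=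
      mul_nonpos_of_nonneg_of_nonpos ht (by linarith)
    have h2 := Real.exp_le_one_iff.2 h1
    calc _ ≤ 1 * |E i j| := mul_le_mul_of_nonneg_right h2 (abs_nonneg _)
      _ = |E i j| := one_mul _

end Pool.Agent.H81.GF
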