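import Pool.Agent.H81.GF.Def

/-!
# Gsel: an optimal maximal minor

Finite set of all `σ : Fin k → Fin d` with `det (M.submatrix σ id) ≠ 0`, nonempty.  Choose `σ` in it with
`∑ j, w (σ j)` maximal and, among these, with `|det (M.submatrix σ id)|` maximal (`Finset.exists_max_image` twice).
`C = M * (M.submatrix σ id)⁻¹`, so `M = C * M.submatrix σ id` and `C (σ j) l = δ_jl`.  For `i : Fin d`, `j : Fin k` let
`σ' = Function.update σ j i`.  `M.submatrix σ' id` is `M.submatrix σ id` with row `j` replaced by
`M i = ∑ l, C i l • (M (σ l))`, so its determinant is `C i j * det (M.submatrix σ id)` (`Matrix.det_updateRow_sum`).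
If `C i j ≠ 0` it is nonzero, so `∑ w (σ' l) ≤ ∑ w (σ l)`, i.e. `w i ≤ w (σ j)` (`Finset.sum_update_of_mem` or compare the
two sums).  If moreover `w i = w (σ j)` then the sums are equal and `|C i j| ≤ 1`.
-/

set_option autoImplicit false

namespace Pool.Agent.H81.GF

open Matrix Filter Topology Pool.Agent.H89.CSD Pool.Agent.H46.RG

variable {d : ℕ}

private theorem gsel_det {k : ℕ} (C : Matrix (Fin d) (Fin k) ℝ) (σ : Fin k → Fin d)
    (hC : C.submatrix σ id = 1) (i : Fin d) (j : Fin k) :
    (C.submatrix (Function.update σ j i) id).det = C i j := by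
  have h1 : C.submatrix (Function.update σ j i) id =
      (1 : Matrix (Fin k) (Fin k) ℝ).updateRow j (C i) := by
    rw [← hC]
    ext a b
    by_cases hab : a = j
    · subst hab
      simp
    · simp [Matrix.updateRow_apply, hab]
  rw [h1, ← Matrix.cramer_transpose_apply, Matrix.transpose_one, Matrix.cramer_one]
  rfl

theorem gsel {k : ℕ} (w : Fin d → ℝ) (M : Matrix (Fin d) (Fin k) ℝ)
    (h : ∃ σ : Fin k → Fin d, (M.submatrix σ id).det ≠ 0) :
    ∃ (σ : Fin k → Fin d) (C : Matrix (Fin d) (Fin k) ℝ), (M.submatrix σ id).det ≠ 0 ∧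
      M = C * M.submatrix σ id ∧ (∀ i j, C i j ≠ 0 → w i ≤ w (σ j)) ∧
      (∀ i j, w i = w (σ j) → |C i j| ≤ 1) ∧ (∀ j l, C (σ j) l = if j = l then 1 else 0) := by
  classical
  let S : Finset (Fin k → Fin d) := Finset.univ.filter fun σ => (M.submatrix σ id).det ≠ 0
  have hS : S.Nonempty := by
    obtain ⟨σ, hσ⟩ := h
    exact ⟨σ, by simpa [S] using hσ⟩
  obtain ⟨σ₀, hσ₀, hmax₀⟩ := Finset.exists_max_image S (fun σ => ∑ j, w (σ j)) hS
  let S' : Finset (Fin k → Fin d) := S.filter fun σ => ∑ j, w (σ j) = ∑ j, w (σ₀ j)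
  have hS' : S'.Nonempty := ⟨σ₀, by simp only [S', Finset.mem_filter]; exact ⟨hσ₀, trivial⟩⟩
  obtain ⟨σ, hσ, hmax⟩ := Finset.exists_max_image S' (fun σ => |(M.submatrix σ id).det|) hS'
  simp only [S', S, Finset.mem_filter, Finset.mem_univ, true_and] at hσ hσ₀ hmax₀ hmax
  obtain ⟨hdet, hsum⟩ := hσ
  have hu : IsUnit (M.submatrix σ id).det := isUnit_iff_ne_zero.2 hdet
  have hM : M = M * (M.submatrix σ id)⁻¹ * M.submatrix σ id := by
    rw [Matrix.mul_assoc, Matrix.nonsing_inv_mul _ hu, Matrix.mul_one]
  have hC1 : (M * (M.submatrix σ id)⁻¹).submatrix σ id = 1 := by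
    have h2 : (M * (M.submatrix σ id)⁻¹).submatrix σ id =
        M.submatrix σ id * (M.submatrix σ id)⁻¹ := by
      ext a b
      simp [Matrix.mul_apply]
    rw [h2, Matrix.mul_nonsing_inv _ hu]
  have hdet' : ∀ (i : Fin d) (j : Fin k), (M.submatrix (Function.update σ j i) id).det =
      (M * (M.submatrix σ id)⁻¹) i j * (M.submatrix σ id).det := by
    intro i j
    have h2 : M.submatrix (Function.update σ j i) id =
        (M * (M.submatrix σ id)⁻¹).submatrix (Function.update σ j i) id *
          M.submatrix σ id := by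
      have h3 : ∀ τ : Fin k → Fin d, M.submatrix τ id =
          (M * (M.submatrix σ id)⁻¹).submatrix τ id * M.submatrix σ id := by
        intro τ
        have h4 : (M * (M.submatrix σ id)⁻¹).submatrix τ id * M.submatrix σ id =
            (M * (M.submatrix σ id)⁻¹ * M.submatrix σ id).submatrix τ id := by
          ext a b
          simp [Matrix.mul_apply]
        rw [h4, ← hM]
      exact h3 _
    rw [h2, Matrix.det_mul, gsel_det _ σ hC1]
  have hsumu : ∀ (i : Fin d) (j : Fin k), ∑ l, w (Function.update σ j i l) = ∑ l, w (σ l) + (w i - w (σ j)) := by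
    intro i j
    have h5 : ∀ l, w (Function.update σ j i l) = Function.update (fun l => w (σ l)) j (w i) l := by
      intro l
      by_cases hl : l = j
      · subst hl
        simp
      · simp [hl]
    rw [Finset.sum_congr rfl fun l _ => h5 l, Finset.sum_update_of_mem (Finset.mem_univ j),
      ← Finset.add_sum_erase Finset.univ (fun l => w (σ l)) (Finset.mem_univ j),
      Finset.sdiff_singleton_eq_erase]
    ring
  have key : ∀ i j, (M * (M.submatrix σ id)⁻¹) i j ≠ 0 → w i ≤ w (σ j) := by
    intro i j hij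
    have h6 : (M.submatrix (Function.update σ j i) id).det ≠ 0 := by
      rw [hdet']
      exact mul_ne_zero hij hdet
    have h7 := hmax₀ _ h6
    rw [hsumu, ← hsum] at h7
    linarith
  refine ⟨σ, M * (M.submatrix σ id)⁻¹, hdet, hM, key, ?_, ?_⟩
  · intro i j hij
    by_cases h0 : (M * (M.submatrix σ id)⁻¹) i j = 0
    · rw [h0]
      simp
    · have h6 : (M.submatrix (Function.update σ j i) id).det ≠ 0 := by
        rw [hdet']
        exact mul_ne_zero h0 hdet
      have h7 := hmax (Function.update σ j i) ⟨h6, by rw [hsumu, hsum, hij]; ring⟩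
      rw [hdet', abs_mul] at h7
      have h8 : 0 < |(M.submatrix σ id).det| := abs_pos.2 hdet
      by_contra h9
      push Not at h9
      have := mul_lt_mul_of_pos_right h9 h8
      linarith
  · intro j l
    have h10 := congrFun (congrFun hC1 j) l
    rw [Matrix.one_apply] at h10
    exact h10

end Pool.Agent.H81.GF
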