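import Pool.Agent.H81.GF.Gmag
import Pool.Agent.H81.GF.Gret
import Pool.Agent.H81.GF.Girr
import Pool.Agent.H46.RG.Sth

/-!
# Main: shear pairs for general one-parameter groups

Copy of the proof of `H46.RG.block_shear` (read `Pool/Agent/H46/RG/Sth.lean`) with `gmag`, `gret`, `girr` in place of `mag`,
`ret`, `irr_return`, and `I = {i | c₀ < w i}`: `E a b = 0` for `a ∈ I`, `b ∉ I` because then `w b ≤ c₀ < w a`.
-/

set_option autoImplicit false

namespace Pool.Agent.H81.GF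

open Matrix Filter Topology Pool.Agent.H89.CSD Pool.Agent.H46.RG

variable {d : ℕ}

/-- Row `i` of a product with a matrix on the left. -/
private theorem gmul_row (M y : Matrix (Fin d) (Fin d) ℝ) (i : Fin d) :
    (M * y) i = ∑ j, M i j • y j := by
  ext k
  rw [Matrix.mul_apply, Finset.sum_apply]
  rfl

theorem general_shear (hd : 3 ≤ d) {g : Matrix (Fin d) (Fin d) ℝ} (hg : g.det ≠ 0) {c : ℝ}
    (hc : 0 < c) (hp : Pos c g) (hn : ¬ IntForm g) {w : Fin d → ℝ} (hw : ∑ i, w i = 0) {c₀ : ℝ}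
    (hI : (Finset.univ.filter fun i => c₀ < w i).card.Coprime d)
    {Z : Set (Matrix (Fin d) (Fin d) ℝ)} (hZ : Z ⊆ Om g) (hinv : IsInv (GFlow w) Z) :
    ∃ z ∈ Z, ∃ v : Matrix (Fin d) (Fin d) ℝ, v ≠ 0 ∧ Up w v ∧ (1 + v) * z ∈ Z := by
  by_contra hcon
  have hno : ∀ z ∈ Z, ∀ v : Matrix (Fin d) (Fin d) ℝ, v ≠ 0 → Up w v → (1 + v) * z ∉ Z := by
    intro z hz v hv hb hm
    exact hcon ⟨z, hz, v, hv, hb, hm⟩
  obtain ⟨δ, hδ, hmag⟩ := gmag hg hc hp w hZ hinv hno
  obtain ⟨δ₁, M₀, hδ₁, hirr₀⟩ := girr (show 0 < d by omega) hw hI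
  have hδ' : 0 < min δ δ₁ := lt_min hδ hδ₁
  obtain ⟨y, hyZ, E, hE, hEy, m, U, hm, hret⟩ := gret hg hc hp w hZ hinv hδ' M₀
  have hEw := hmag y hyZ E hEy fun i j => (hE i j).trans_le (min_le_left _ _)
  obtain ⟨I, hIdef⟩ : ∃ I : Finset (Fin d), I = Finset.univ.filter fun i => c₀ < w i := ⟨_, rfl⟩
  rw [← hIdef] at hI
  have hE0 : ∀ a ∈ I, ∀ b, b ∉ I → E a b = 0 := by
    intro a ha b hb
    rw [hIdef, Finset.mem_filter] at ha hb
    refine hEw a b (lt_of_le_of_lt ?_ ha.2)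
    by_contra hcon'
    exact hb ⟨Finset.mem_univ _, not_le.1 hcon'⟩
  have hy0 : y.det ≠ 0 := Om_det_ne hg (hZ hyZ)
  have hpy : Pos c y := Om_pos hg hc hp (hZ hyZ)
  have hirr := hirr₀ c hc y E hy0 hpy (fun i j => (hE i j).trans_le (min_le_right _ _)) hEw m U hm
    hret
  obtain ⟨K, _, _, Ψ, θ, hK, hΨ, hθ⟩ := Pool.Agent.H46.field_of_matrix d _ hirr
  have hcast : (Ψ θ).map (Rat.cast : ℚ → ℝ) = im (U : Matrix (Fin d) (Fin d) ℤ) := by
    rw [hΨ]
    ext i j
    simp [im]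
  obtain ⟨lam, hlam, heig⟩ := Pool.Agent.H46.main_K d hd hK Ψ y hy0 I hI θ hθ
    (by
      intro i hi
      rw [hcast]
      have h1 : vecMul (y i) (im (U : Matrix (Fin d) (Fin d) ℤ)) =
          (y * im (U : Matrix (Fin d) (Fin d) ℤ)) i := by
        ext k
        rw [Matrix.mul_apply]
        rfl
      rw [h1, hret]
      have h2 : (diagonal (gflow w (-(m : ℝ))) * ((1 + E) * y)) i =
          gflow w (-(m : ℝ)) i • ∑ j, (1 + E) i j • y j := by
        rw [← gmul_row]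
        ext k
        rw [Matrix.diagonal_mul]
        rfl
      rw [h2]
      apply Submodule.smul_mem
      apply Submodule.sum_mem
      intro j _
      by_cases hj : j ∈ I
      · apply Submodule.smul_mem
        apply Submodule.subset_span
        exact ⟨j, hj, rfl⟩
      · have hij : i ≠ j := fun h => hj (h ▸ hi)
        have h3 : (1 + E) i j = 0 := by
          rw [Matrix.add_apply, Matrix.one_apply_ne hij, hE0 i hi j hj, add_zero]
        rw [h3, zero_smul]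
        exact Submodule.zero_mem _) c hc hpy
  rw [hcast] at heig
  exact hn (near_int hd hg hc hp (hZ hyZ) ⟨_, lam, hlam, heig⟩)

end Pool.Agent.H81.GF
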